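import Mathlib
import Pool.Agent.Helper78.LazyWalkDefs
import Pool.Agent.Helper78.SolvableWalk

open Filter Topology
open Pool.Agent.Helper78.LazyWalk

namespace Pool.Agent.Results.MP_ffcf77_al.SolvableCounterexample

/-- Q1 of MP_ffcf77_al has a negative answer, already among solvable groups, and for all finite
generating sets of one such group simultaneously. -/
theorem result : ∃ (G : Type) (_ : Group G), Group.IsSolvable G ∧ Group.FG G ∧
    ∃ w : FreeGroup (Fin 3),
      (∀ S : Set G, S.Finite → Subgroup.closure S = ⊤ → Tendsto (lazyProb S w) atTop (𝓝 1)) ∧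
      ∃ g : Fin 3 → G, FreeGroup.lift g w ≠ 1 :=
  ⟨Pool.Agent.Helper78.SolvableWalk.G, inferInstance, inferInstance,
    Pool.Agent.Helper78.SolvableWalk.G_fg, Pool.Agent.Helper78.SolvableWalk.word,
    Pool.Agent.Helper78.SolvableWalk.tendsto_word, Pool.Agent.Helper78.SolvableWalk.not_law⟩

end Pool.Agent.Results.MP_ffcf77_al.SolvableCounterexample
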